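import Pool.Agent.H50.SV.VV

/-!
# The question for squarefree levels and central values for conductors at most `√N`
-/

set_option autoImplicit false

open Complex Filter Topology Matrix.SpecialLinearGroup MatrixGroups Finset DirichletCharacter

namespace Pool.Agent.H50.SV

open Pool.Agent.TH133.SH
open Pool.Agent.K4H24.SZ (IsSemistable IsValue exists_value SemistableEntries SqrtDenominators
  AllDenominators RealCoordBound)
open Pool.Agent.K4H67.TV (Uv HasLVal)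

variable {N : ℕ} {a : ℕ → ℤ} {Ω₁ Ω₂ : ℂ}

/-- There are constants `κ`, `C` such that, for all newforms of all squarefree levels `N` and all
primitive characters `χ` whose conductor `d` is at most `√N`, the central value `L(f, χ, 1)` is at most
`C N ^ κ Ω₁` if `χ` is even and at most `C N ^ κ Im(Ω₂)` if `χ` is odd. -/
def SqrtConductors : Prop :=
  ∃ κ : ℝ, 0 < κ ∧ ∃ C : ℝ, 0 < C ∧ ∀ N : ℕ, 1 ≤ N → ∀ a : ℕ → ℤ, IsSemistable N a →
    ∀ Ω₁ Ω₂ : ℂ, IsBasis N a Ω₁ Ω₂ → ∀ d : ℕ, 1 ≤ d → d ^ 2 ≤ N →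
      ∀ χ : DirichletCharacter ℂ d, χ.IsPrimitive → ∀ L : ℂ, HasLVal a χ L →
        (χ.Even → ‖L‖ ≤ C * (N : ℝ) ^ κ * Ω₁.re) ∧ (χ.Odd → ‖L‖ ≤ C * (N : ℝ) ^ κ * Ω₂.im)

/-- The same for all conductors `d ≤ N ^ A` (`κ` and `C` depend on `A`). -/
def ConductorsAtMost (A : ℕ) : Prop :=
  ∃ κ : ℝ, 0 < κ ∧ ∃ C : ℝ, 0 < C ∧ ∀ N : ℕ, 1 ≤ N → ∀ a : ℕ → ℤ, IsSemistable N a →
    ∀ Ω₁ Ω₂ : ℂ, IsBasis N a Ω₁ Ω₂ → ∀ d : ℕ, 1 ≤ d → d ≤ N ^ A →
      ∀ χ : DirichletCharacter ℂ d, χ.IsPrimitive → ∀ L : ℂ, HasLVal a χ L →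
        (χ.Even → ‖L‖ ≤ C * (N : ℝ) ^ κ * Ω₁.re) ∧ (χ.Odd → ‖L‖ ≤ C * (N : ℝ) ^ κ * Ω₂.im)

/-- The same for all conductors `d`, with an additional factor `√d (1 + log d)`. -/
def AllConductors : Prop :=
  ∃ κ : ℝ, 0 < κ ∧ ∃ C : ℝ, 0 < C ∧ ∀ N : ℕ, 1 ≤ N → ∀ a : ℕ → ℤ, IsSemistable N a →
    ∀ Ω₁ Ω₂ : ℂ, IsBasis N a Ω₁ Ω₂ → ∀ d : ℕ, 1 ≤ d →
      ∀ χ : DirichletCharacter ℂ d, χ.IsPrimitive → ∀ L : ℂ, HasLVal a χ L →
        (χ.Even → ‖L‖ ≤ C * (N : ℝ) ^ κ * (√(d : ℝ) * (1 + Real.log d)) * Ω₁.re) ∧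
        (χ.Odd → ‖L‖ ≤ C * (N : ℝ) ^ κ * (√(d : ℝ) * (1 + Real.log d)) * Ω₂.im)

lemma sqrt_four (hN : 1 ≤ N) : ((Nat.sqrt N : ℕ) : ℝ) ^ 4 ≤ (N : ℝ) ^ 2 := by
  have h1 : (Nat.sqrt N) ^ 2 ≤ N := Nat.sqrt_le' N
  have h2 : ((Nat.sqrt N : ℕ) : ℝ) ^ 2 ≤ N := by exact_mod_cast h1
  calc ((Nat.sqrt N : ℕ) : ℝ) ^ 4 = (((Nat.sqrt N : ℕ) : ℝ) ^ 2) ^ 2 := by ring
    _ ≤ (N : ℝ) ^ 2 := by gcongr

/-- Even central values and real parts. -/
theorem re_small (hN : 1 ≤ N) (ha : IsSemistable N a) {X : ℝ} (hX : 0 ≤ X)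
    (h : ∀ d : ℕ, 1 ≤ d → d ^ 2 ≤ N → ∀ χ : DirichletCharacter ℂ d, χ.IsPrimitive → χ.Even →
      ∀ L : ℂ, HasLVal a χ L → ‖L‖ ≤ X) (r : ℚ) (hr : r.den ^ 2 ≤ N) (w : ℂ)
    (hw : IsValue a r w) : |w.re| ≤ (N : ℝ) ^ 2 * X := by
  have h1 := re_bound hN ha (D := Nat.sqrt N) hX (fun d hd hdN χ hχ hc L hL =>
    h d hd (Nat.le_sqrt'.1 hdN) χ hχ hc L hL) r (Nat.le_sqrt'.2 hr)
  rw [isValue_eq hw] at h1
  exact h1.trans (mul_le_mul_of_nonneg_right (sqrt_four hN) hX)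

/-- Odd central values and imaginary parts. -/
theorem im_small (hN : 1 ≤ N) (ha : IsSemistable N a) {X : ℝ} (hX : 0 ≤ X)
    (h : ∀ d : ℕ, 1 ≤ d → d ^ 2 ≤ N → ∀ χ : DirichletCharacter ℂ d, χ.IsPrimitive → χ.Odd →
      ∀ L : ℂ, HasLVal a χ L → ‖L‖ ≤ X) (r : ℚ) (hr : r.den ^ 2 ≤ N) (w : ℂ)
    (hw : IsValue a r w) : |w.im| ≤ (N : ℝ) ^ 2 * X := by
  have h1 := im_bound hN ha (D := Nat.sqrt N) hX (fun d hd hdN χ hχ hc L hL =>
    h d hd (Nat.le_sqrt'.1 hdN) χ hχ hc L hL) r (Nat.le_sqrt'.2 hr)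
  rw [isValue_eq hw] at h1
  exact h1.trans (mul_le_mul_of_nonneg_right (sqrt_four hN) hX)

/-- **One parity and one part of the Shimura map.** -/
theorem parity_bound (hN : 1 ≤ N) (ha : IsSemistable N a) {X : ℝ} (hX : 0 ≤ X) :
    ((∀ d : ℕ, 1 ≤ d → d ^ 2 ≤ N → ∀ χ : DirichletCharacter ℂ d, χ.IsPrimitive → χ.Even →
        ∀ L : ℂ, HasLVal a χ L → ‖L‖ ≤ X) →
      ∀ p q r s : ℤ, p * s - q * r = 1 → (N : ℤ) ∣ r → r ≠ 0 →
        |(Hval a p q r s).re| ≤ 2 * ((N : ℝ) ^ 2 * X) * (Nat.log 2 r.natAbs + 1)) ∧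
    ((∀ d : ℕ, 1 ≤ d → d ^ 2 ≤ N → ∀ χ : DirichletCharacter ℂ d, χ.IsPrimitive → χ.Odd →
        ∀ L : ℂ, HasLVal a χ L → ‖L‖ ≤ X) →
      ∀ p q r s : ℤ, p * s - q * r = 1 → (N : ℤ) ∣ r → r ≠ 0 →
        |(Hval a p q r s).im| ≤ 2 * ((N : ℝ) ^ 2 * X) * (Nat.log 2 r.natAbs + 1)) := by
  constructor
  · intro h
    exact (Pool.Agent.K4H24.SZ.inequality hN ha (L := Complex.reLm)
      (fun r hr w hw => re_small hN ha hX h r hr w hw)).1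
  · intro h
    exact (Pool.Agent.K4H24.SZ.inequality hN ha (L := Complex.imLm)
      (fun r hr w hw => im_small hN ha hX h r hr w hw)).1

lemma re_im_le (hb : IsBasis N a Ω₁ Ω₂) {w : ℂ} {Y : ℝ} (hw : RealCoordBound Ω₁ Ω₂ w Y) :
    |w.re| ≤ 2 * Y * Ω₁.re ∧ |w.im| ≤ 2 * Y * Ω₂.im := by
  obtain ⟨h1, h2⟩ := hw.out hb
  have e := Pool.Agent.K4H24.SZ.eq_coords hb w
  set x := L₁ Ω₁ Ω₂ w with hx
  set y := L₂ Ω₂ w with hy
  have hre : w.re = x * Ω₁.re + y * Ω₂.re := by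
    have := congrArg Complex.re e
    simpa [hb.im₁] using this
  have him : w.im = y * Ω₂.im := by
    have := congrArg Complex.im e
    simpa [hb.im₁] using this
  have hY : 0 ≤ Y := (abs_nonneg x).trans h1
  have h₁ := hb.re₁
  have h₂ := hb.im₂
  constructor
  · rw [hre]
    calc |x * Ω₁.re + y * Ω₂.re| ≤ |x * Ω₁.re| + |y * Ω₂.re| := abs_add_le _ _
      _ = |x| * Ω₁.re + |y| * Ω₂.re := by
          rw [abs_mul, abs_mul, abs_of_pos h₁, abs_of_nonneg hb.re₂]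
      _ ≤ Y * Ω₁.re + Y * Ω₁.re := by
          have := hb.re₂'.le
          have := hb.re₂
          gcongr
      _ = 2 * Y * Ω₁.re := by ring
  · rw [him, abs_mul, abs_of_pos h₂]
    calc |y| * Ω₂.im ≤ (2 * Y) * Ω₂.im := by
          gcongr
          linarith
      _ = 2 * Y * Ω₂.im := by ring

lemma coord_of (hb : IsBasis N a Ω₁ Ω₂) {w : ℂ} {Y : ℝ} (h1 : |w.re| ≤ Y * Ω₁.re)
    (h2 : |w.im| ≤ Y * Ω₂.im) : RealCoordBound Ω₁ Ω₂ w (2 * Y) := by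
  intro x y hxy
  have h₁ := hb.re₁
  have h₂ := hb.im₂
  have hre : w.re = x * Ω₁.re + y * Ω₂.re := by
    rw [hxy]
    simp [hb.im₁]
  have him : w.im = y * Ω₂.im := by
    rw [hxy]
    simp [hb.im₁]
  have hy : |y| ≤ Y := by
    rw [him, abs_mul, abs_of_pos h₂] at h2
    exact le_of_mul_le_mul_right h2 h₂
  have hY : 0 ≤ Y := (abs_nonneg y).trans hy
  have hx : |x| ≤ 2 * Y := by
    have h3 : |x * Ω₁.re| ≤ 2 * Y * Ω₁.re := by
      have e : x * Ω₁.re = w.re - y * Ω₂.re := by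
        rw [hre]
        ring
      rw [e]
      calc |w.re - y * Ω₂.re| ≤ |w.re| + |y * Ω₂.re| := abs_sub _ _
        _ ≤ Y * Ω₁.re + Y * Ω₁.re := by
            have h4 : |y * Ω₂.re| ≤ Y * Ω₁.re := by
              rw [abs_mul, abs_of_nonneg hb.re₂]
              exact mul_le_mul hy hb.re₂'.le hb.re₂ hY
            linarith
        _ = 2 * Y * Ω₁.re := by ring
    rw [abs_mul, abs_of_pos h₁] at h3
    exact le_of_mul_le_mul_right h3 h₁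
  exact ⟨hx, by linarith⟩

theorem den_of_sqrt (h : SqrtConductors) : SqrtDenominators := by
  obtain ⟨κ, hκ, C, hC, h⟩ := h
  refine ⟨κ + 2, by positivity, 2 * C, by positivity, ?_⟩
  intro N hN a ha Ω₁ Ω₂ hb r hr w hw
  have hN0 : (0 : ℝ) < N := by exact_mod_cast hN
  have h₁ := hb.re₁
  have h₂ := hb.im₂
  have h1 := re_small hN ha (X := C * (N : ℝ) ^ κ * Ω₁.re) (by positivity)
    (fun d hd hdN χ hχ hc L hL => (h N hN a ha Ω₁ Ω₂ hb d hd hdN χ hχ L hL).1 hc) r hr w hw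
  have h2 := im_small hN ha (X := C * (N : ℝ) ^ κ * Ω₂.im) (by positivity)
    (fun d hd hdN χ hχ hc L hL => (h N hN a ha Ω₁ Ω₂ hb d hd hdN χ hχ L hL).2 hc) r hr w hw
  have h3 := coord_of hb (w := w) (Y := C * (N : ℝ) ^ (κ + 2))
    (by
      rw [Real.rpow_add hN0, Real.rpow_two]
      refine h1.trans (le_of_eq ?_)
      ring)
    (by
      rw [Real.rpow_add hN0, Real.rpow_two]
      refine h2.trans (le_of_eq ?_)
      ring)
  rw [show 2 * C * (N : ℝ) ^ (κ + 2) = 2 * (C * (N : ℝ) ^ (κ + 2)) by ring]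
  exact h3

theorem all_of_den (h : AllDenominators) : AllConductors := by
  obtain ⟨κ, hκ, C, hC, h⟩ := h
  refine ⟨κ, hκ, 2 * C, by positivity, ?_⟩
  intro N hN a ha Ω₁ Ω₂ hb d hd χ hχ L hL
  have : NeZero d := ⟨by omega⟩
  have h₁ := hb.re₁
  have h₂ := hb.im₂
  have hd1 : (1 : ℝ) ≤ d := by exact_mod_cast hd
  have hlogd : 0 ≤ Real.log d := Real.log_nonneg hd1
  have key : ∀ b : ℕ, b.Coprime d →
      |(Uv a ((b : ℚ) / d)).re| ≤ 2 * (C * (N : ℝ) ^ κ * (1 + Real.log d)) * Ω₁.re ∧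
      |(Uv a ((b : ℚ) / d)).im| ≤ 2 * (C * (N : ℝ) ^ κ * (1 + Real.log d)) * Ω₂.im := by
    intro b hbd
    have hden : (((b : ℤ) : ℚ) / ((d : ℤ) : ℚ)).den = d := by
      have := Rat.den_div_eq_of_coprime (a := (b : ℤ)) (b := (d : ℤ)) (by exact_mod_cast hd)
        (by simpa using hbd)
      exact_mod_cast this
    have hden' : ((b : ℚ) / d).den = d := by
      have e : ((b : ℚ) / d) = ((b : ℤ) : ℚ) / ((d : ℤ) : ℚ) := by
        push_cast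
        rfl
      rw [e]
      exact hden
    have h1 := h N hN a ha Ω₁ Ω₂ hb ((b : ℚ) / d) _ (hasVal hN ha _)
    rw [hden'] at h1
    exact re_im_le hb h1
  constructor
  · intro hc
    have h1 := lval_le hN ha hχ hL (E := 2 * (C * (N : ℝ) ^ κ * (1 + Real.log d)) * Ω₁.re)
      (by positivity) (Or.inl ⟨hc, fun b hbd => (key b hbd).1⟩)
    refine h1.trans (le_of_eq ?_)
    ring
  · intro hc
    have h1 := lval_le hN ha hχ hL (E := 2 * (C * (N : ℝ) ^ κ * (1 + Real.log d)) * Ω₂.im)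
      (by positivity) (Or.inr ⟨hc, fun b hbd => (key b hbd).2⟩)
    refine h1.trans (le_of_eq ?_)
    ring

theorem bounded_of_all (h : AllConductors) (A : ℕ) : ConductorsAtMost A := by
  obtain ⟨κ, hκ, C, hC, h⟩ := h
  refine ⟨κ + (2 * A : ℕ), by positivity, 2 * C, by positivity, ?_⟩
  intro N hN a ha Ω₁ Ω₂ hb d hd hdA χ hχ L hL
  have h1 := h N hN a ha Ω₁ Ω₂ hb d hd χ hχ L hL
  have hN0 : (0 : ℝ) < N := by exact_mod_cast hN
  have hd0 : (0 : ℝ) < d := by exact_mod_cast hd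
  have hd1 : (1 : ℝ) ≤ d := by exact_mod_cast hd
  have h₁ := hb.re₁
  have h₂ := hb.im₂
  have hfac : √(d : ℝ) * (1 + Real.log d) ≤ 2 * (N : ℝ) ^ (2 * A) := by
    have h2 : √(d : ℝ) ≤ d := by
      rw [Real.sqrt_le_left (by linarith)]
      nlinarith
    have h3 : Real.log d ≤ d := Real.log_le_self hd0.le
    have h3' : 0 ≤ Real.log d := Real.log_nonneg hd1
    have h4 : (d : ℝ) ≤ (N : ℝ) ^ A := by exact_mod_cast hdA
    calc √(d : ℝ) * (1 + Real.log d) ≤ d * (d + d) := by gcongr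
      _ ≤ (N : ℝ) ^ A * ((N : ℝ) ^ A + (N : ℝ) ^ A) := by gcongr
      _ = _ := by rw [mul_comm 2 A, pow_mul]; ring
  have hmain : ∀ Ω : ℝ, 0 < Ω → C * (N : ℝ) ^ κ * (√(d : ℝ) * (1 + Real.log d)) * Ω ≤
      2 * C * (N : ℝ) ^ (κ + (2 * A : ℕ)) * Ω := by
    intro Ω hΩ
    rw [Real.rpow_add hN0, Real.rpow_natCast]
    calc C * (N : ℝ) ^ κ * (√(d : ℝ) * (1 + Real.log d)) * Ω
        ≤ C * (N : ℝ) ^ κ * (2 * (N : ℝ) ^ (2 * A)) * Ω := by gcongr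
      _ = _ := by ring
  exact ⟨fun hc => (h1.1 hc).trans (hmain _ h₁), fun hc => (h1.2 hc).trans (hmain _ h₂)⟩

theorem sqrt_of_bounded (h : ConductorsAtMost 1) : SqrtConductors := by
  obtain ⟨κ, hκ, C, hC, h⟩ := h
  refine ⟨κ, hκ, C, hC, ?_⟩
  intro N hN a ha Ω₁ Ω₂ hb d hd hdN χ hχ L hL
  refine h N hN a ha Ω₁ Ω₂ hb d hd ?_ χ hχ L hL
  rw [pow_one]
  exact (Nat.le_self_pow (by norm_num) d).trans hdN

theorem main : List.TFAE [SemistableEntries 2, SqrtConductors, ∀ A : ℕ, ConductorsAtMost A,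
    AllConductors] := by
  have h12 : SqrtDenominators ↔ SemistableEntries 2 := Pool.Agent.K4H24.SZ.tfae.out 1 0
  have h13 : SemistableEntries 2 ↔ AllDenominators := Pool.Agent.K4H24.SZ.tfae.out 0 2
  tfae_have 2 → 1 := fun h => h12.1 (den_of_sqrt h)
  tfae_have 1 → 4 := fun h => all_of_den (h13.1 h)
  tfae_have 4 → 3 := fun h A => bounded_of_all h A
  tfae_have 3 → 2 := fun h => sqrt_of_bounded (h 1)
  tfae_finish

end Pool.Agent.H50.SV
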