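import Pool.Graph.R_pool_sql_team_seeded_c8625f6e.K4H67.TV.Char

/-!
# Character sums of functions with a Hecke relation at all primes

The relation at the prime `ℓ` is `∑_j V((x + j) / ℓ) + e(ℓ) V(ℓ x) = α(ℓ) V(x)`, with `|e(ℓ)| ≤ 1`
(`e(ℓ) = 0` at the primes which divide the level).
-/

set_option autoImplicit false

open Finset DirichletCharacter

namespace Pool.Agent.H50.SV

open Pool.Agent.K4H67.TV

/-- A function on the rational numbers with period one and with Hecke relations for all primes. -/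
structure AllHecke (e α : ℕ → ℂ) (V : ℚ → ℂ) : Prop where
  per : ∀ x : ℚ, V (x + 1) = V x
  hecke : ∀ ℓ : ℕ, ℓ.Prime → ∀ (b : ℕ) (m : ℕ), 0 < m →
    ∑ j ∈ range ℓ, V (((b : ℚ) / m + j) / ℓ) + e ℓ * V (ℓ * ((b : ℚ) / m)) = α ℓ * V ((b : ℚ) / m)
  bound : ∀ ℓ : ℕ, ℓ.Prime → ‖α ℓ‖ ≤ ℓ + 1
  ebound : ∀ ℓ : ℕ, ℓ.Prime → ‖e ℓ‖ ≤ 1

variable {e α : ℕ → ℂ} {V : ℚ → ℂ}

/-- The same function for the level `0` (all primes divide it). -/
lemma AllHecke.zero (h : AllHecke e α V) : HeckeFn 0 α V where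
  per := h.per
  hecke := fun ℓ _ h0 => absurd (dvd_zero ℓ) h0
  bound := fun ℓ _ h0 => absurd (dvd_zero ℓ) h0

/-- The recursion for induced characters. -/
lemma step (h : AllHecke e α V) {ℓ m' : ℕ} (hℓ : ℓ.Prime)
    [NeZero m'] [NeZero (ℓ * m')] (χ' : DirichletCharacter ℂ m') :
    Sm V (ℓ * m') (changeLevel (dvd_mul_left m' ℓ) χ') =
      α ℓ * Sm V m' χ' - e ℓ * ∑ b ∈ range m', χ' (b : ZMod m') * V (ℓ * ((b : ℚ) / m'))
        - χ' (ℓ : ZMod m') * Sm V m' χ' := by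
  have hm' : 0 < m' := NeZero.pos m'
  have hm'q : (m' : ℚ) ≠ 0 := by exact_mod_cast hm'.ne'
  have hℓq : (ℓ : ℚ) ≠ 0 := by exact_mod_cast hℓ.pos.ne'
  rw [Sm_range h.zero, Sm_range h.zero]
  have h1 : ∀ n ∈ range (ℓ * m'), changeLevel (dvd_mul_left m' ℓ) χ' ((n : ℕ) : ZMod (ℓ * m')) *
      V ((n : ℚ) / ((ℓ * m' : ℕ) : ℚ)) = χ' (n : ZMod m') * V ((n : ℚ) / ((ℓ * m' : ℕ) : ℚ)) -
        (if ℓ ∣ n then χ' (n : ZMod m') * V ((n : ℚ) / ((ℓ * m' : ℕ) : ℚ)) else 0) := by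
    intro n _
    rw [changeLevel_nat hℓ hm']
    split_ifs
    · ring
    · ring
  rw [sum_congr rfl h1, sum_sub_distrib, sum_range_dvd hℓ.pos, sum_range_mul]
  have h2 : ∀ b ∈ range m', ∑ j ∈ range ℓ, χ' ((b + m' * j : ℕ) : ZMod m') *
      V (((b + m' * j : ℕ) : ℚ) / ((ℓ * m' : ℕ) : ℚ)) =
      α ℓ * (χ' (b : ZMod m') * V ((b : ℚ) / m')) -
        e ℓ * (χ' (b : ZMod m') * V (ℓ * ((b : ℚ) / m'))) := by
    intro b _
    have h3 : ∀ j ∈ range ℓ, χ' ((b + m' * j : ℕ) : ZMod m') *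
        V (((b + m' * j : ℕ) : ℚ) / ((ℓ * m' : ℕ) : ℚ)) =
        χ' (b : ZMod m') * V (((b : ℚ) / m' + j) / ℓ) := by
      intro j _
      congr 2
      · push_cast
        rw [ZMod.natCast_self, zero_mul, add_zero]
      · push_cast
        field_simp
    rw [sum_congr rfl h3, ← mul_sum]
    have h4 := h.hecke ℓ hℓ b m' hm'
    rw [eq_sub_of_add_eq h4]
    ring
  rw [sum_congr rfl h2, sum_sub_distrib, ← mul_sum, ← mul_sum]
  congr 1
  rw [mul_sum]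
  refine sum_congr rfl fun k _ => ?_
  push_cast
  rw [map_mul, mul_div_mul_left _ _ hℓq, mul_assoc]

/-- **All character sums are bounded in terms of those of the primitive characters.** -/
theorem sums_bound (h : AllHecke e α V) {D : ℕ} {X : ℝ} (hX : 0 ≤ X)
    (hprim : ∀ (d : ℕ) [NeZero d], d ≤ D → ∀ χ : DirichletCharacter ℂ d,
      χ.IsPrimitive → ‖Sm V d χ‖ ≤ X) :
    ∀ (m : ℕ) [NeZero m], m ≤ D → ∀ χ : DirichletCharacter ℂ m,
      ‖Sm V m χ‖ ≤ (m : ℝ) ^ 3 * X := by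
  intro m
  induction m using Nat.strong_induction_on with
  | _ m ih =>
    intro _ hmD χ
    have hm1 : (1 : ℝ) ≤ m := by exact_mod_cast NeZero.pos m
    by_cases hp : χ.IsPrimitive
    · refine (hprim m hmD χ hp).trans ?_
      have : (1 : ℝ) ≤ (m : ℝ) ^ 3 := one_le_pow₀ hm1
      nlinarith
    obtain ⟨ℓ, m', hℓ, hm, χ', hχ'⟩ := exists_prime_level χ hp
    subst hm
    subst hχ'
    have hm'0 : m' ≠ 0 := by
      rintro rfl
      exact NeZero.ne (ℓ * 0) (mul_zero ℓ)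
    have : NeZero m' := ⟨hm'0⟩
    have hm'pos : 0 < m' := Nat.pos_of_ne_zero hm'0
    have hlt : m' < ℓ * m' := by
      have := hℓ.two_le
      nlinarith
    have h1 := ih m' hlt (hlt.le.trans hmD)
    have hℓ2 : (2 : ℝ) ≤ ℓ := by exact_mod_cast hℓ.two_le
    have hm'R : (0 : ℝ) < m' := by exact_mod_cast hm'pos
    have hstep := step h hℓ χ'
    change ‖Sm V (ℓ * m') (changeLevel (dvd_mul_left m' ℓ) χ')‖ ≤ _
    rw [hstep]
    have hα := h.bound ℓ hℓ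
    have he := h.ebound ℓ hℓ
    set Y : ℝ := (m' : ℝ) ^ 3 * X with hY
    have hY0 : 0 ≤ Y := by positivity
    have hS := h1 χ'
    by_cases hd : ℓ ∣ m'
    · obtain ⟨m₂, rfl⟩ := hd
      have hm₂0 : m₂ ≠ 0 := by
        rintro rfl
        exact hm'0 (mul_zero ℓ)
      have : NeZero m₂ := ⟨hm₂0⟩
      have hm₂pos : 0 < m₂ := Nat.pos_of_ne_zero hm₂0
      have hlt2 : m₂ < ℓ * m₂ := by
        have := hℓ.two_le
        nlinarith
      have h2 := ih m₂ (hlt2.trans hlt) ((hlt2.trans hlt).le.trans hmD)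
      have h3 := twist_dvd h.zero hℓ χ' (X := (m₂ : ℝ) ^ 3 * X) (by positivity) h2
      have h4 : χ' ((ℓ : ℕ) : ZMod (ℓ * m₂)) = 0 := by
        apply MulChar.map_nonunit
        rw [ZMod.isUnit_iff_coprime]
        intro hc
        have := Nat.Coprime.coprime_mul_right_right hc
        rw [Nat.coprime_self] at this
        exact hℓ.one_lt.ne' this
      rw [h4, zero_mul, sub_zero]
      calc ‖α ℓ * Sm V (ℓ * m₂) χ' - e ℓ * ∑ b ∈ range (ℓ * m₂), χ' (b : ZMod (ℓ * m₂)) *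
            V (ℓ * ((b : ℚ) / ((ℓ * m₂ : ℕ) : ℚ)))‖
          ≤ ‖α ℓ * Sm V (ℓ * m₂) χ'‖ + ‖e ℓ * ∑ b ∈ range (ℓ * m₂), χ' (b : ZMod (ℓ * m₂)) *
            V (ℓ * ((b : ℚ) / ((ℓ * m₂ : ℕ) : ℚ)))‖ := norm_sub_le _ _
        _ ≤ (ℓ + 1) * Y + 1 * (ℓ * ((m₂ : ℝ) ^ 3 * X)) := by
            rw [norm_mul, norm_mul]
            gcongr
        _ = (ℓ + 1) * Y + ℓ * ((m₂ : ℝ) ^ 3 * X) := by rw [one_mul]
        _ ≤ (((ℓ * (ℓ * m₂) : ℕ) : ℕ) : ℝ) ^ 3 * X := by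
            rw [hY]
            push_cast
            have e1 : ((ℓ : ℝ) * (ℓ * m₂)) ^ 3 * X = (ℓ : ℝ) ^ 6 * ((m₂ : ℝ) ^ 3 * X) := by ring
            have e2 : ((ℓ : ℝ) + 1) * (((ℓ : ℝ) * m₂) ^ 3 * X) + ℓ * ((m₂ : ℝ) ^ 3 * X) =
                (((ℓ : ℝ) + 1) * (ℓ : ℝ) ^ 3 + ℓ) * ((m₂ : ℝ) ^ 3 * X) := by ring
            rw [e1, e2]
            have h5 : ((ℓ : ℝ) + 1) * (ℓ : ℝ) ^ 3 + ℓ ≤ (ℓ : ℝ) ^ 6 := by
              have h6 : (ℓ : ℝ) + 1 ≤ (ℓ : ℝ) ^ 2 := by nlinarith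
              have h7 : (ℓ : ℝ) ^ 2 * 2 ≤ (ℓ : ℝ) ^ 3 := by nlinarith [sq_nonneg (ℓ : ℝ)]
              have h8 : (ℓ : ℝ) ^ 3 * 2 ≤ (ℓ : ℝ) ^ 4 := by
                nlinarith [pow_nonneg (by linarith : (0:ℝ) ≤ ℓ) 3]
              have h9 : (ℓ : ℝ) ^ 4 * 2 ≤ (ℓ : ℝ) ^ 5 := by
                nlinarith [pow_nonneg (by linarith : (0:ℝ) ≤ ℓ) 4]
              have h10 : (ℓ : ℝ) ^ 5 * 2 ≤ (ℓ : ℝ) ^ 6 := by
                nlinarith [pow_nonneg (by linarith : (0:ℝ) ≤ ℓ) 5]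
              have h11 : ((ℓ : ℝ) + 1) * (ℓ : ℝ) ^ 3 ≤ (ℓ : ℝ) ^ 2 * (ℓ : ℝ) ^ 3 := by gcongr
              nlinarith [pow_nonneg (by linarith : (0:ℝ) ≤ ℓ) 5]
            gcongr
    · have hc : ℓ.Coprime m' := (Nat.Prime.coprime_iff_not_dvd hℓ).2 hd
      have h3 := twist_coprime h.zero hc χ'
      have h4 : ‖χ' ((ℓ : ℕ) : ZMod m')‖ = 1 := by
        have := χ'.unit_norm_eq_one (ZMod.unitOfCoprime ℓ hc)
        rwa [ZMod.coe_unitOfCoprime] at this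
      calc ‖α ℓ * Sm V m' χ' - e ℓ * ∑ b ∈ range m', χ' (b : ZMod m') * V (ℓ * ((b : ℚ) / m')) -
            χ' (ℓ : ZMod m') * Sm V m' χ'‖
          ≤ ‖α ℓ * Sm V m' χ'‖ +
            ‖e ℓ * ∑ b ∈ range m', χ' (b : ZMod m') * V (ℓ * ((b : ℚ) / m'))‖ +
            ‖χ' (ℓ : ZMod m') * Sm V m' χ'‖ :=
              (norm_sub_le _ _).trans (add_le_add_left (norm_sub_le _ _) _)
        _ ≤ (ℓ + 1) * Y + 1 * Y + 1 * Y := by
            rw [norm_mul, norm_mul, norm_mul, h3, h4]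
            gcongr
        _ = (ℓ + 3) * Y := by ring
        _ ≤ (((ℓ * m' : ℕ) : ℕ) : ℝ) ^ 3 * X := by
            rw [hY]
            push_cast
            have e1 : ((ℓ : ℝ) * m') ^ 3 * X = (ℓ : ℝ) ^ 3 * ((m' : ℝ) ^ 3 * X) := by ring
            rw [e1]
            have h5 : (ℓ : ℝ) + 3 ≤ (ℓ : ℝ) ^ 3 := by nlinarith [sq_nonneg ((ℓ : ℝ) - 2)]
            gcongr

/-- The values of the function are bounded in terms of the character sums. -/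
theorem value_bound (h : AllHecke e α V) {D : ℕ} {X : ℝ} (hX : 0 ≤ X)
    (hprim : ∀ (d : ℕ) [NeZero d], d ≤ D → ∀ χ : DirichletCharacter ℂ d,
      χ.IsPrimitive → ‖Sm V d χ‖ ≤ X)
    (m : ℕ) (hm : 0 < m) (hmD : m ≤ D) (b : ℕ) (hb : b.Coprime m) :
    ‖V ((b : ℚ) / m)‖ ≤ (m : ℝ) ^ 3 * X := by
  have : NeZero m := ⟨hm.ne'⟩
  have h1 := sums_bound h hX hprim m hmD
  have hbu : IsUnit (b : ZMod m) := (ZMod.isUnit_iff_coprime b m).2 hb
  have h2 : (Nat.totient m : ℂ) * V ((b : ℚ) / m) =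
      ∑ χ : DirichletCharacter ℂ m, χ (b : ZMod m)⁻¹ * Sm V m χ := by
    unfold Sm
    simp_rw [mul_sum]
    rw [sum_comm]
    have h3 : ∀ c : ZMod m, ∑ χ : DirichletCharacter ℂ m, χ (b : ZMod m)⁻¹ *
        (χ c * V ((c.val : ℚ) / m)) = if (b : ZMod m) = c then
          (Nat.totient m : ℂ) * V ((c.val : ℚ) / m) else 0 := by
      intro c
      have h4 := sum_char_inv_mul_char_eq (R := ℂ) hbu c
      simp_rw [← mul_assoc]
      rw [← sum_mul, h4]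
      split_ifs <;> simp
    rw [sum_congr rfl (fun c _ => h3 c), sum_ite_eq]
    simp only [mem_univ, if_true]
    rw [h.zero.cast]
  have hφ : (0 : ℝ) < Nat.totient m := by exact_mod_cast Nat.totient_pos.2 hm
  have h5 : (Nat.totient m : ℝ) * ‖V ((b : ℚ) / m)‖ ≤ Nat.totient m * ((m : ℝ) ^ 3 * X) := by
    have h6 := congrArg norm h2
    rw [norm_mul, Complex.norm_natCast] at h6
    rw [h6]
    refine (norm_sum_le _ _).trans ?_
    have h7 : ∀ χ ∈ (univ : Finset (DirichletCharacter ℂ m)),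
        ‖χ (b : ZMod m)⁻¹ * Sm V m χ‖ ≤ (m : ℝ) ^ 3 * X := by
      intro χ _
      rw [norm_mul]
      calc ‖χ (b : ZMod m)⁻¹‖ * ‖Sm V m χ‖ ≤ 1 * ((m : ℝ) ^ 3 * X) :=
            mul_le_mul (χ.norm_le_one _) (h1 χ) (norm_nonneg _) zero_le_one
        _ = (m : ℝ) ^ 3 * X := one_mul _
    refine (sum_le_sum h7).trans ?_
    rw [sum_const, nsmul_eq_mul]
    have h8 : ((univ : Finset (DirichletCharacter ℂ m)).card : ℝ) = Nat.totient m := by
      rw [card_univ, ← Nat.card_eq_fintype_card,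
        DirichletCharacter.card_eq_totient_of_hasEnoughRootsOfUnity ℂ m]
    rw [h8]
  exact le_of_mul_le_mul_left h5 hφ

end Pool.Agent.H50.SV
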