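import Pool.Graph.R_pool_sql_team_seeded_c8625f6e.K4H67.TV.Val
import Pool.Graph.R_pool_sql_team_seeded_c8625f6e.K4H67.TV.Strict
import Pool.Graph.R_pool_sql_team_seeded_c8625f6e.K4H24.SZ.Main

/-!
# The coefficients of a newform of squarefree level at the primes which divide the level

If `q ∣ N` is prime and `f(W_q τ) = ε (…)² / q f(τ)`, then `a(q n) = - ε a(n)`: the trace of `f` to
level `N / q` is zero.
-/

set_option autoImplicit false

open Complex Filter Topology Matrix.SpecialLinearGroup MatrixGroups Finset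

namespace Pool.Agent.H50.SV

open Pool.Agent.TH133.SH
open Pool.Agent.K4H24.SZ (IsSemistable IsAtkinLehner)
open Pool.Agent.K4H67.TV (ee slash slash_eq den_ne' fser_act geom tsum_multiples)

variable {N : ℕ} {a : ℕ → ℤ}

lemma cocycle (h g : SL(2, ℤ)) {z : ℂ} (hz : 0 < z.im) :
    (((h 1 0 : ℤ) : ℂ) * act g z + ((h 1 1 : ℤ) : ℂ)) * (((g 1 0 : ℤ) : ℂ) * z + ((g 1 1 : ℤ) : ℂ)) =
      (((h * g) 1 0 : ℤ) : ℂ) * z + (((h * g) 1 1 : ℤ) : ℂ) := by
  have hd := den_ne' g hz
  have h1 : act g z * (((g 1 0 : ℤ) : ℂ) * z + ((g 1 1 : ℤ) : ℂ)) =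
      ((g 0 0 : ℤ) : ℂ) * z + ((g 0 1 : ℤ) : ℂ) := by
    unfold act mob
    push_cast
    exact div_mul_cancel₀ _ hd
  rw [mul10, mul11]
  push_cast
  linear_combination ((h 1 0 : ℤ) : ℂ) * h1

lemma slash_mul (h g : SL(2, ℤ)) {z : ℂ} (hz : 0 < z.im) :
    slash a h (act g z) = (((g 1 0 : ℤ) : ℂ) * z + ((g 1 1 : ℤ) : ℂ)) ^ 2 * slash a (h * g) z := by
  rw [slash_eq h (act_im_pos g hz), slash_eq _ hz, ← cocycle h g hz, act_mul h g hz, mul_pow]
  have h1 := den_ne' g hz
  have h2 := den_ne' h (act_im_pos g hz)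
  field_simp

lemma slash_left (ha : IsForm N a) {h g : SL(2, ℤ)} (hh : InG N h) {z : ℂ} (hz : 0 < z.im) :
    slash a (h * g) z = slash a g z := by
  rw [slash_eq _ hz, slash_eq _ hz, act_mul h g hz, fser_act ha hh (act_im_pos g hz),
    ← cocycle h g hz]
  have h1 := den_ne' g hz
  have h2 := den_ne' h (act_im_pos g hz)
  field_simp

lemma slash_one {z : ℂ} (hz : 0 < z.im) : slash a 1 z = fser a z := by
  rw [slash_eq _ hz, act_one]
  simp

/-- `f | g` depends only on the lower row of `g` modulo `q`, for `g ∈ Γ₀(N / q)`. -/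
lemma slash_eq_of (ha : IsForm N a) {M q : ℕ} (hMq : N = M * q) (hcop : M.Coprime q)
    {g g' : SL(2, ℤ)} (hg : InG M g) (hg' : InG M g')
    (hx : (q : ℤ) ∣ g 1 0 * g' 1 1 - g' 1 0 * g 1 1) {z : ℂ} (hz : 0 < z.im) :
    slash a g z = slash a g' z := by
  have h1 : g = (g * g'⁻¹) * g' := by group
  rw [h1]
  refine slash_left ha ?_ hz
  unfold InG at *
  rw [mul10, inv00, inv10, hMq]
  push_cast
  have h2 : IsCoprime (M : ℤ) (q : ℤ) := Nat.isCoprime_iff_coprime.2 hcop
  have h3 : (M : ℤ) ∣ g 1 0 * g' 1 1 + g 1 1 * -(g' 1 0) :=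
    dvd_add (hg.mul_right _) ((dvd_neg.2 hg').mul_left _)
  refine h2.mul_dvd h3 ?_
  have e : g 1 0 * g' 1 1 + g 1 1 * -(g' 1 0) = g 1 0 * g' 1 1 - g' 1 0 * g 1 1 := by ring
  rw [e]
  exact hx

section trace

variable {M q : ℕ} {x y : ℤ} (hdet : (q : ℤ) * x - M * y = 1)

/-- Representatives of `Γ₀(N) \ Γ₀(N / q)`. -/
def rep (hdet : (q : ℤ) * x - M * y = 1) (j : ℤ) : SL(2, ℤ) :=
  mk x (x * j + y) M (M * j + q) (by linear_combination hdet)

lemma rep00 (j : ℤ) : rep hdet j 0 0 = x := rfl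
lemma rep01 (j : ℤ) : rep hdet j 0 1 = x * j + y := rfl
lemma rep10 (j : ℤ) : rep hdet j 1 0 = M := rfl
lemma rep11 (j : ℤ) : rep hdet j 1 1 = M * j + q := rfl

lemma rep_inG (j : ℤ) : InG M (rep hdet j) := dvd_rfl

/-- All representatives. -/
noncomputable def reps (hdet : (q : ℤ) * x - M * y = 1) (c : OnePoint (ZMod q)) : SL(2, ℤ) :=
  c.elim 1 (fun j => rep hdet (j.val : ℤ))

lemma reps_inG (c : OnePoint (ZMod q)) : InG M (reps hdet c) := by
  unfold reps
  cases c with
  | infty => simp [InG]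
  | coe j => exact rep_inG hdet _

lemma inG_mul {g h : SL(2, ℤ)} (hg : InG M g) (hh : InG M h) : InG M (g * h) := by
  unfold InG at *
  rw [mul10]
  exact dvd_add (hg.mul_right _) (hh.mul_left _)

/-- The permutation of the projective line. -/
lemma perm_sum (ha : IsForm N a) (hq : q.Prime) (hMq : N = M * q) (hcop : M.Coprime q)
    [Fintype (OnePoint (ZMod q))] {g : SL(2, ℤ)} (hg : InG M g) {z : ℂ} (hz : 0 < z.im) :
    ∑ c : OnePoint (ZMod q), slash a (reps hdet c * g) z =
      ∑ c : OnePoint (ZMod q), slash a (reps hdet c) z := by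
  classical
  have : Fact q.Prime := ⟨hq⟩
  have hdg : ((g 1 1 : ℤ) : ZMod q) * ((g 0 0 : ℤ) : ZMod q) -
      ((g 0 1 : ℤ) : ZMod q) * ((g 1 0 : ℤ) : ZMod q) = 1 := by
    have h1 := congrArg (fun t : ℤ => (t : ZMod q)) (det_eq g)
    push_cast at h1
    linear_combination h1
  set G : GL (Fin 2) (ZMod q) := Matrix.GeneralLinearGroup.mkOfDetNeZero
    !![((g 1 1 : ℤ) : ZMod q), ((g 0 1 : ℤ) : ZMod q); ((g 1 0 : ℤ) : ZMod q), ((g 0 0 : ℤ) : ZMod q)]
    (by rw [Matrix.det_fin_two_of, hdg]; exact one_ne_zero) with hG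
  have G00 : G 0 0 = ((g 1 1 : ℤ) : ZMod q) := rfl
  have G01 : G 0 1 = ((g 0 1 : ℤ) : ZMod q) := rfl
  have G10 : G 1 0 = ((g 1 0 : ℤ) : ZMod q) := rfl
  have G11 : G 1 1 = ((g 0 0 : ℤ) : ZMod q) := rfl
  rw [← Equiv.sum_comp (MulAction.toPerm G) (fun c => slash a (reps hdet c) z)]
  refine sum_congr rfl fun c _ => ?_
  refine slash_eq_of ha hMq hcop (inG_mul (reps_inG hdet c) hg) (reps_inG hdet _) ?_ hz
  rw [← ZMod.intCast_zmod_eq_zero_iff_dvd]
  rw [MulAction.toPerm_apply, mul10, mul11]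
  have hq0 : ((q : ℤ) : ZMod q) = 0 := by
    push_cast
    exact ZMod.natCast_self q
  cases c with
  | infty =>
    rw [OnePoint.smul_infty_eq_ite]
    have e1 : reps hdet (OnePoint.infty) = 1 := rfl
    rw [e1]
    split_ifs with h
    · rw [e1]
      rw [G10] at h
      simp [h]
    · have e2 : ∀ t : ZMod q, reps hdet (t : OnePoint (ZMod q)) = rep hdet (t.val : ℤ) := fun t => rfl
      rw [e2, rep10, rep11]
      rw [G10] at h
      push_cast
      rw [ZMod.natCast_zmod_val, G00, G10]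
      simp only [Matrix.SpecialLinearGroup.coe_one, Matrix.one_apply_ne, Matrix.one_apply_eq, ne_eq,
        one_ne_zero, not_false_eq_true, Int.cast_zero, Int.cast_one, zero_mul, one_mul, zero_add]
      rw [ZMod.natCast_self]
      field_simp
      ring
  | coe j =>
    have e2 : ∀ t : ZMod q, reps hdet (t : OnePoint (ZMod q)) = rep hdet (t.val : ℤ) := fun t => rfl
    rw [OnePoint.smul_some_eq_ite, e2, rep10, rep11]
    split_ifs with h
    · have e1 : reps hdet (OnePoint.infty) = 1 := rfl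
      rw [e1]
      rw [G10, G11] at h
      simp only [Matrix.SpecialLinearGroup.coe_one, Matrix.one_apply_ne, Matrix.one_apply_eq, ne_eq,
        one_ne_zero, not_false_eq_true, zero_mul, mul_one, sub_zero]
      push_cast
      rw [ZMod.natCast_zmod_val, ZMod.natCast_self]
      linear_combination (M : ZMod q) * h
    · rw [e2, rep10, rep11]
      rw [G10, G11] at h
      push_cast
      rw [ZMod.natCast_zmod_val, ZMod.natCast_zmod_val, ZMod.natCast_self, G00, G10, G01, G11]
      have h3 := div_mul_cancel₀ (((g 1 1 : ℤ) : ZMod q) * j + ((g 0 1 : ℤ) : ZMod q)) h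
      generalize (((g 1 1 : ℤ) : ZMod q) * j + ((g 0 1 : ℤ) : ZMod q)) /
        (((g 1 0 : ℤ) : ZMod q) * j + ((g 0 0 : ℤ) : ZMod q)) = t at h3 ⊢
      linear_combination (M : ZMod q) ^ 2 * h3

/-- The values at the representatives. -/
lemma slash_rep {ε : ℝ} (hal : ∀ τ : ℂ, 0 < τ.im → fser a (((q : ℂ) * x * τ + y) / ((N : ℂ) * τ + q)) =
      (ε : ℂ) * ((N : ℂ) * τ + q) ^ 2 / q * fser a τ) (hq : 0 < q) (hMq : N = M * q) (j : ℤ) {z : ℂ}
    (hz : 0 < z.im) : slash a (rep hdet j) z = (ε : ℂ) / q * fser a ((z + j) / q) := by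
  have hq0 : (q : ℂ) ≠ 0 := by exact_mod_cast hq.ne'
  have hqr : (0 : ℝ) < q := by exact_mod_cast hq
  have him : 0 < ((z + j) / q).im := by
    rw [Complex.div_natCast_im]
    simp only [Complex.add_im, Complex.intCast_im, add_zero]
    positivity
  rw [slash_eq _ hz]
  have hd := den_ne' (rep hdet j) hz
  have h1 := hal _ him
  rw [rep10, rep11] at hd ⊢
  have e1 : (N : ℂ) * ((z + j) / q) + q = (((M : ℤ) : ℂ)) * z + ((M * j + q : ℤ) : ℂ) := by
    rw [hMq]
    push_cast
    field_simp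
    ring
  have e2 : ((q : ℂ) * x * ((z + j) / q) + y) / ((((M : ℤ) : ℂ)) * z + ((M * j + q : ℤ) : ℂ)) =
      act (rep hdet j) z := by
    unfold act mob
    rw [rep00, rep01, rep10, rep11]
    push_cast
    congr 1
    field_simp
    ring
  rw [e1, e2] at h1
  rw [h1]
  field_simp

end trace

/-- The sum over the conjugates as a series. -/
lemma sum_conj (ha : IsForm N a) {q : ℕ} (hq : 0 < q) {τ : ℂ} (hτ : 0 < τ.im) :
    Summable (fun k : ℕ => (a (q * k) : ℂ) * ee k τ) ∧
    ∑ j ∈ range q, fser a ((τ + j) / q) = q * ∑' k : ℕ, (a (q * k) : ℂ) * ee k τ := by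
  have hq0 : (q : ℂ) ≠ 0 := by exact_mod_cast hq.ne'
  have hqr : (0 : ℝ) < q := by exact_mod_cast hq
  have him : 0 < (τ / q).im := by
    rw [Complex.div_natCast_im]
    positivity
  have hs : Summable (fun k : ℕ => (a k : ℂ) * ee k (τ / q)) := ha.summable _ him
  have hinj : Function.Injective (fun m : ℕ => q * m) := fun m n h => Nat.eq_of_mul_eq_mul_left hq h
  have he : ∀ k : ℕ, ee (q * k) (τ / q) = ee k τ := by
    intro k
    unfold ee
    congr 1
    push_cast
    field_simp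
  refine ⟨(hs.comp_injective hinj).congr fun k => by simp only [Function.comp]; rw [he], ?_⟩
  have h2 : ∀ j ∈ range q, fser a ((τ + j) / q) =
      ∑' k : ℕ, (a k : ℂ) * ee k (τ / q) * ee k ((j : ℂ) / q) := by
    intro j _
    unfold fser
    refine tsum_congr fun k => ?_
    have e : ee k ((τ + j) / q) = ee k (τ / q) * ee k ((j : ℂ) / q) := by
      unfold ee
      rw [← Complex.exp_add]
      congr 1
      ring
    change (a k : ℂ) * ee k ((τ + j) / q) = _
    rw [e]
    ring
  rw [sum_congr rfl h2, ← Summable.tsum_finsetSum]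
  · have h3 : ∀ k : ℕ, ∑ j ∈ range q, (a k : ℂ) * ee k (τ / q) * ee k ((j : ℂ) / q) =
        if q ∣ k then (q : ℂ) * ((a k : ℂ) * ee k (τ / q)) else 0 := by
      intro k
      rw [← mul_sum, geom hq]
      split_ifs
      · ring
      · ring
    rw [tsum_congr h3, tsum_multiples hq (fun k => (q : ℂ) * ((a k : ℂ) * ee k (τ / q))),
      tsum_mul_left]
    congr 1
    exact tsum_congr fun k => by rw [he]
  · intro j _
    refine Summable.of_norm_bounded hs.norm (fun k => ?_)
    rw [norm_mul]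
    apply mul_le_of_le_one_right (norm_nonneg _)
    apply le_of_eq
    unfold ee
    rw [Complex.norm_exp]
    simp [Complex.div_re, Complex.div_im, Complex.mul_re, Complex.mul_im]

/-- **The coefficients at a prime dividing the level.** -/
theorem u_rel (hN : 1 ≤ N) (ha : IsSemistable N a) {q : ℕ} (hq : q.Prime) (hqN : q ∣ N) :
    (a q = 1 ∨ a q = -1) ∧ ∀ n : ℕ, a (q * n) = a q * a n := by
  classical
  have hf := ha.toIsForm
  obtain ⟨M, hM⟩ := hqN
  have hMq : N = M * q := by rw [hM, mul_comm]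
  have hM0 : 0 < M := by
    rcases Nat.eq_zero_or_pos M with h | h
    · rw [h] at hM
      omega
    · exact h
  have hcop : M.Coprime q := by
    have := ha.squarefree
    rw [hMq] at this
    exact (Nat.squarefree_mul_iff.1 this).1
  have hqr : (0 : ℝ) < q := by exact_mod_cast hq.pos
  have hq0 : (q : ℂ) ≠ 0 := by exact_mod_cast hq.ne_zero
  obtain ⟨u, v, huv⟩ := Nat.isCoprime_iff_coprime.2 hcop.symm
  have hdet : (q : ℤ) * u - M * (-v) = 1 := by linear_combination huv
  obtain ⟨ε, hε, hal⟩ := ha.atkin_lehner q ⟨M, hM⟩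
  have hdiv : N / q = M := by rw [hMq]; exact Nat.mul_div_cancel M hq.pos
  have hal' : ∀ τ : ℂ, 0 < τ.im → fser a (((q : ℂ) * u * τ + ((-v : ℤ) : ℂ)) / ((N : ℂ) * τ + q)) =
      (ε : ℂ) * ((N : ℂ) * τ + q) ^ 2 / q * fser a τ := by
    intro τ hτ
    have h1 := hal τ hτ u (-v) 1 1 (by rw [hdiv]; linear_combination hdet)
    push_cast at h1 ⊢
    rw [mul_one, mul_one] at h1
    exact h1
  let _ : NeZero q := ⟨hq.ne_zero⟩
  let _ : Fintype (OnePoint (ZMod q)) := inferInstanceAs (Fintype (Option (ZMod q)))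
  have hsum : ∀ τ : ℂ, 0 < τ.im → ∑ c : OnePoint (ZMod q), slash a (reps hdet c) τ =
      fser a τ + (ε : ℂ) / q * ∑ j ∈ range q, fser a ((τ + j) / q) := by
    intro τ hτ
    have h1 : ∑ c : OnePoint (ZMod q), slash a (reps hdet c) τ =
        slash a (reps hdet OnePoint.infty) τ + ∑ j : ZMod q, slash a (reps hdet (j : OnePoint (ZMod q))) τ :=
      Fintype.sum_option (fun c : Option (ZMod q) => slash a (reps hdet c) τ)
    rw [h1]
    congr 1
    · exact slash_one hτ
    · rw [mul_sum, ← Pool.Agent.K4H67.TV.sum_range_zmod q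
        (fun j => slash a (reps hdet (j : OnePoint (ZMod q))) τ)]
      refine sum_congr rfl fun j hj => ?_
      have e : reps hdet (((j : ZMod q)) : OnePoint (ZMod q)) = rep hdet (j : ℤ) := by
        change rep hdet ((((j : ZMod q)).val : ℕ) : ℤ) = _
        rw [ZMod.val_cast_of_lt (mem_range.1 hj)]
      rw [e, slash_rep hdet hal' hq.pos hMq _ hτ]
      push_cast
      rfl
  set b : ℕ → ℂ := fun n => (a n : ℂ) + (ε : ℂ) * (a (q * n) : ℂ) with hb
  have hbs : ∀ τ : ℂ, 0 < τ.im → Summable (fun k : ℕ => b k * ee k τ) := by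
    intro τ hτ
    have h1 : Summable (fun k : ℕ => (a k : ℂ) * ee k τ) := hf.summable τ hτ
    refine (h1.add ((sum_conj hf hq.pos hτ).1.mul_left (ε : ℂ))).congr fun k => ?_
    simp only [hb]
    ring
  have hbt : ∀ τ : ℂ, 0 < τ.im → ∑' k : ℕ, b k * ee k τ =
      ∑ c : OnePoint (ZMod q), slash a (reps hdet c) τ := by
    intro τ hτ
    have h1 : Summable (fun k : ℕ => (a k : ℂ) * ee k τ) := hf.summable τ hτ
    have h2 := sum_conj hf hq.pos hτ
    rw [hsum τ hτ, h2.2, ← mul_assoc, div_mul_cancel₀ _ hq0, ← tsum_mul_left]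
    change _ = ∑' k : ℕ, (a k : ℂ) * ee k τ + _
    rw [← h1.tsum_add (h2.1.mul_left (ε : ℂ))]
    refine tsum_congr fun k => ?_
    simp only [hb]
    ring
  obtain ⟨B, hB⟩ := hf.bounded
  have hεn : ‖(ε : ℂ)‖ = 1 := by
    rw [Complex.norm_real]
    rcases hε with h | h <;> rw [h] <;> simp
  have hzero := ha.new M hM0 ⟨q, hMq⟩ (by rw [hMq]; have := hq.two_le; nlinarith) b
    (fun τ hτ => hbs τ hτ)
    (fun τ hτ p q' r s hdet' hMr => by
      set g : SL(2, ℤ) := mk p q' r s hdet' with hg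
      have hgG : InG M g := hMr
      have hact : ((p : ℂ) * τ + (q' : ℂ)) / ((r : ℂ) * τ + (s : ℂ)) = act g τ := by
        unfold act mob
        push_cast
        rfl
      have h1 := hbt τ hτ
      have h2 := hbt (act g τ) (act_im_pos g hτ)
      rw [hact]
      unfold ee at h1 h2
      rw [h1, h2]
      have h3 : ∀ c ∈ (univ : Finset (OnePoint (ZMod q))), slash a (reps hdet c) (act g τ) =
          ((r : ℂ) * τ + (s : ℂ)) ^ 2 * slash a (reps hdet c * g) τ := fun c _ => slash_mul _ _ hτ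
      rw [sum_congr rfl h3, ← mul_sum, perm_sum hdet hf hq hMq hcop hgG hτ])
    ⟨B + q * B, fun τ hτ => by
      have h1 := hbt τ hτ
      unfold ee at h1
      rw [h1, hsum τ hτ]
      have h2 : ∀ j ∈ range q, τ.im * ‖(ε : ℂ) / q * fser a ((τ + j) / q)‖ ≤ B := by
        intro j _
        have him : 0 < ((τ + j) / q).im := by
          rw [Complex.div_natCast_im]
          simp only [Complex.add_im, Complex.natCast_im, add_zero]
          positivity
        have h3 := hB _ him
        rw [Complex.div_natCast_im] at h3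
        simp only [Complex.add_im, Complex.natCast_im, add_zero] at h3
        rw [norm_mul, norm_div, hεn, Complex.norm_natCast]
        calc τ.im * (1 / q * ‖fser a ((τ + j) / q)‖) = τ.im / q * ‖fser a ((τ + j) / q)‖ := by ring
          _ ≤ B := h3
      calc τ.im * ‖fser a τ + (ε : ℂ) / q * ∑ j ∈ range q, fser a ((τ + j) / q)‖
          ≤ τ.im * (‖fser a τ‖ + ∑ j ∈ range q, ‖(ε : ℂ) / q * fser a ((τ + j) / q)‖) := by
            rw [mul_sum]
            gcongr
            exact (norm_add_le _ _).trans (add_le_add_right (norm_sum_le _ _) _)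
        _ = τ.im * ‖fser a τ‖ + ∑ j ∈ range q, τ.im * ‖(ε : ℂ) / q * fser a ((τ + j) / q)‖ := by
            rw [mul_add, mul_sum]
        _ ≤ B + q * B := by
            refine add_le_add (hB τ hτ) ((sum_le_sum h2).trans ?_)
            simp⟩
    (fun ℓ hℓ hℓN n => by
      have h1 := ha.hecke ℓ hℓ hℓN n
      have h2 := ha.hecke ℓ hℓ hℓN (q * n)
      have hne : ¬ ℓ ∣ q := by
        intro h
        exact hℓN (h.trans ⟨M, hM⟩)
      have hiff : ℓ ∣ q * n ↔ ℓ ∣ n := by
        rw [hℓ.dvd_mul]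
        exact or_iff_right hne
      have e1 : ℓ * (q * n) = q * (ℓ * n) := by ring
      rw [e1] at h2
      have h1' := congrArg (fun t : ℤ => (t : ℂ)) h1
      have h2' := congrArg (fun t : ℤ => (t : ℂ)) h2
      simp only [hb]
      by_cases hd : ℓ ∣ n
      · have e2 : q * n / ℓ = q * (n / ℓ) := Nat.mul_div_assoc q hd
        rw [if_pos hd] at h1' ⊢
        rw [if_pos (hiff.2 hd), e2] at h2'
        push_cast at h1' h2' ⊢
        linear_combination h1' + (ε : ℂ) * h2'
      · rw [if_neg hd] at h1' ⊢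
        rw [if_neg (fun h => hd (hiff.1 h))] at h2'
        push_cast at h1' h2' ⊢
        linear_combination h1' + (ε : ℂ) * h2')
  have hrel : ∀ n : ℕ, (a (q * n) : ℝ) = -ε * a n := by
    intro n
    have h1 : (a n : ℂ) + (ε : ℂ) * (a (q * n) : ℂ) = 0 := hzero n
    have h2 : (a n : ℝ) + ε * (a (q * n) : ℝ) = 0 := by exact_mod_cast h1
    rcases hε with h | h <;> rw [h] at h2 ⊢ <;> linarith
  have h1 := hrel 1
  rw [mul_one, ha.one] at h1
  push_cast at h1
  rw [mul_one] at h1
  constructor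
  · rcases hε with h | h
    · right
      rw [h] at h1
      exact_mod_cast h1
    · left
      rw [h] at h1
      norm_num at h1
      exact_mod_cast h1
  · intro n
    have h2 := hrel n
    rw [← h1] at h2
    exact_mod_cast h2

end Pool.Agent.H50.SV
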