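import Pool.Agent.H50.SV.UU
import Pool.Agent.H50.SV.HF
import Pool.Graph.R_pool_sql_team_seeded_c8625f6e.K4H67.TV.Main

/-!
# Boundary values at all rational numbers and twisted central values for all conductors
-/

set_option autoImplicit false

open Complex Filter Topology Matrix.SpecialLinearGroup MatrixGroups Finset DirichletCharacter

namespace Pool.Agent.H50.SV

open Pool.Agent.TH133.SH
open Pool.Agent.K4H24.SZ (IsSemistable IsValue exists_value)
open Pool.Agent.K4H67.TV (ee Fser_eq summable_F geom tsum_multiples HasVal Uv Rv Iv Sm HasLVal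
  Uv_per HasVal.self HasVal.eq HasVal.conj Sm_split Sm_split' twisted_series norm_gauss gauss_ne
  prim_inv even_inv odd_inv hecke_val abs_le)

variable {N : ℕ} {a : ℕ → ℤ}

lemma hasVal (hN : 1 ≤ N) (ha : IsSemistable N a) (x : ℚ) : HasVal a x (Uv a x) := by
  obtain ⟨w, hw⟩ := exists_value hN ha x
  exact HasVal.self hw

lemma isValue_eq {x : ℚ} {w : ℂ} (h : IsValue a x w) : Uv a x = w := HasVal.eq h

/-- The relation for the primitive at a prime dividing the level. -/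
lemma bad_F (ha : IsForm N a) {q : ℕ} (hq : 0 < q) (hrel : ∀ n : ℕ, a (q * n) = a q * a n) {τ : ℂ}
    (hτ : 0 < τ.im) : ∑ j ∈ range q, Fser a ((τ + j) / q) = (a q : ℂ) * Fser a τ := by
  have hq0 : (q : ℂ) ≠ 0 := by exact_mod_cast hq.ne'
  have hqr : (0 : ℝ) < q := by exact_mod_cast hq
  have him : 0 < (τ / q).im := by
    rw [Complex.div_natCast_im]
    positivity
  have hs := summable_F ha him
  have he : ∀ k : ℕ, ee (q * k) (τ / q) = ee k τ := by
    intro k
    unfold ee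
    congr 1
    push_cast
    field_simp
  have h2 : ∀ j ∈ range q, Fser a ((τ + j) / q) =
      ∑' k : ℕ, (a k : ℂ) / (k : ℂ) * ee k (τ / q) * ee k ((j : ℂ) / q) := by
    intro j _
    rw [Fser_eq]
    refine tsum_congr fun k => ?_
    have e : ee k ((τ + j) / q) = ee k (τ / q) * ee k ((j : ℂ) / q) := by
      unfold ee
      rw [← Complex.exp_add]
      congr 1
      ring
    rw [e]
    ring
  rw [sum_congr rfl h2, ← Summable.tsum_finsetSum]
  · have h3 : ∀ k : ℕ, ∑ j ∈ range q, (a k : ℂ) / (k : ℂ) * ee k (τ / q) * ee k ((j : ℂ) / q) =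
        if q ∣ k then (q : ℂ) * ((a k : ℂ) / (k : ℂ) * ee k (τ / q)) else 0 := by
      intro k
      rw [← mul_sum, geom hq]
      split_ifs
      · ring
      · ring
    rw [tsum_congr h3, tsum_multiples hq (fun k => (q : ℂ) * ((a k : ℂ) / (k : ℂ) * ee k (τ / q))),
      Fser_eq, ← tsum_mul_left]
    refine tsum_congr fun k => ?_
    rw [he, hrel]
    push_cast
    rcases Nat.eq_zero_or_pos k with rfl | hk
    · simp
    · have : (k : ℂ) ≠ 0 := by exact_mod_cast hk.ne'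
      field_simp
  · intro j _
    refine Summable.of_norm_bounded hs.norm (fun k => ?_)
    rw [norm_mul]
    apply mul_le_of_le_one_right (norm_nonneg _)
    apply le_of_eq
    unfold ee
    rw [Complex.norm_exp]
    simp [Complex.div_re, Complex.div_im, Complex.mul_re, Complex.mul_im]

/-- The relation for the boundary values at a prime dividing the level. -/
lemma bad_val (ha : IsForm N a) {q : ℕ} (hq : 0 < q) (hrel : ∀ n : ℕ, a (q * n) = a q * a n)
    {x : ℚ} {u : ℂ} {w : ℕ → ℂ} (hu : HasVal a x u)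
    (hw : ∀ j ∈ range q, HasVal a ((x + j) / q) (w j)) :
    ∑ j ∈ range q, w j = (a q : ℂ) * u := by
  have hqr : (0 : ℝ) < q := by exact_mod_cast hq
  have hqc : (q : ℂ) ≠ 0 := by exact_mod_cast hq.ne'
  have hscale : Tendsto (fun y : ℝ => (q : ℝ)⁻¹ * y) (𝓝[>] 0) (𝓝[>] 0) := by
    rw [tendsto_nhdsWithin_iff]
    constructor
    · have : Tendsto (fun y : ℝ => (q : ℝ)⁻¹ * y) (𝓝 0) (𝓝 ((q : ℝ)⁻¹ * 0)) :=
        (continuous_const.mul continuous_id).tendsto 0
      rw [mul_zero] at this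
      exact this.mono_left nhdsWithin_le_nhds
    · filter_upwards [self_mem_nhdsWithin] with y hy
      have hy0 : (0 : ℝ) < y := hy
      exact Set.mem_Ioi.2 (by positivity)
  have h1 : Tendsto (fun y : ℝ => ∑ j ∈ range q, Fser a ((((x : ℂ) + (y : ℂ) * Complex.I) + j) / q))
      (𝓝[>] 0) (𝓝 (∑ j ∈ range q, w j)) := by
    refine tendsto_finsetSum _ (fun j hj => ?_)
    have h2 := (hw j hj).comp hscale
    refine h2.congr (fun y => ?_)
    simp only [Function.comp]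
    congr 1
    push_cast
    field_simp
    ring
  have h4 := Tendsto.const_mul (a q : ℂ) hu
  refine tendsto_nhds_unique (h1.congr' ?_) h4
  filter_upwards [self_mem_nhdsWithin] with y hy
  have hy0 : (0 : ℝ) < y := hy
  have him : 0 < ((x : ℂ) + (y : ℂ) * Complex.I).im := by
    simpa using hy0
  exact bad_F ha hq hrel him

open Classical in
/-- `1` at the primes not dividing the level, `0` at the others. -/
noncomputable def ind (N : ℕ) (ℓ : ℕ) : ℂ := if ℓ ∣ N then 0 else 1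

lemma Uv_hecke (hN : 1 ≤ N) (ha : IsSemistable N a) {ℓ : ℕ} (hℓ : ℓ.Prime) (x : ℚ) :
    ∑ j ∈ range ℓ, Uv a ((x + j) / ℓ) + ind N ℓ * Uv a (ℓ * x) = (a ℓ : ℂ) * Uv a x := by
  unfold ind
  split_ifs with h
  · rw [zero_mul, add_zero]
    exact bad_val ha.toIsForm hℓ.pos (u_rel hN ha hℓ h).2 (hasVal hN ha x)
      (fun j _ => hasVal hN ha _)
  · rw [one_mul]
    exact hecke_val ha.toIsNewform hℓ h (hasVal hN ha x) (hasVal hN ha _)
      (fun j _ => hasVal hN ha _)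

lemma coeff_bound (hN : 1 ≤ N) (ha : IsSemistable N a) {ℓ : ℕ} (hℓ : ℓ.Prime) :
    ‖(a ℓ : ℂ)‖ ≤ ℓ + 1 := by
  rw [Complex.norm_intCast]
  by_cases h : ℓ ∣ N
  · have h0 : (0 : ℝ) ≤ ℓ := Nat.cast_nonneg ℓ
    rcases (u_rel hN ha hℓ h).1 with h1 | h1
    · rw [h1]
      simp
    · rw [h1]
      simp
  · exact abs_le hN ha.toIsNewform hℓ h

lemma ind_re (ℓ : ℕ) (z : ℂ) : (ind N ℓ * z).re = (ind N ℓ).re * z.re ∧
    (ind N ℓ * z).im = (ind N ℓ).re * z.im ∧ ((ind N ℓ).re : ℂ) = ind N ℓ := by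
  unfold ind
  split_ifs <;> simp

lemma allR (hN : 1 ≤ N) (ha : IsSemistable N a) :
    AllHecke (ind N) (fun ℓ => (a ℓ : ℂ)) (Rv a) where
  per := fun x => by unfold Rv; rw [Uv_per]
  hecke := fun ℓ hℓ b m hm => by
    have h1 := congrArg Complex.re (Uv_hecke hN ha hℓ ((b : ℚ) / m))
    unfold Rv
    have h2 : ∀ z : ℂ, ((a ℓ : ℂ) * z).re = (a ℓ : ℝ) * z.re := fun z => by
      simp [Complex.mul_re]
    rw [Complex.add_re, Complex.re_sum, h2, (ind_re ℓ _).1] at h1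
    have h3 := congrArg (fun t : ℝ => (t : ℂ)) h1
    push_cast at h3
    rw [(ind_re (N := N) ℓ 0).2.2] at h3
    exact h3
  bound := fun ℓ hℓ => coeff_bound hN ha hℓ
  ebound := fun ℓ _ => by unfold ind; split_ifs <;> simp

lemma allI (hN : 1 ≤ N) (ha : IsSemistable N a) :
    AllHecke (ind N) (fun ℓ => (a ℓ : ℂ)) (Iv a) where
  per := fun x => by unfold Iv; rw [Uv_per]
  hecke := fun ℓ hℓ b m hm => by
    have h1 := congrArg Complex.im (Uv_hecke hN ha hℓ ((b : ℚ) / m))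
    unfold Iv
    have h2 : ∀ z : ℂ, ((a ℓ : ℂ) * z).im = (a ℓ : ℝ) * z.im := fun z => by
      simp [Complex.mul_im]
    rw [Complex.add_im, Complex.im_sum, h2, (ind_re ℓ _).2.1] at h1
    have h3 := congrArg (fun t : ℝ => (t : ℂ)) h1
    push_cast at h3
    rw [(ind_re (N := N) ℓ 0).2.2] at h3
    exact h3
  bound := fun ℓ hℓ => coeff_bound hN ha hℓ
  ebound := fun ℓ _ => by unfold ind; split_ifs <;> simp

section parity

variable (hN : 1 ≤ N) (ha : IsSemistable N a) {d : ℕ} [NeZero d] (χ : DirichletCharacter ℂ d)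

include hN ha

lemma Uv_neg (x : ℚ) : Uv a (-x) = starRingEnd ℂ (Uv a x) := (hasVal hN ha x).conj.eq

lemma Uv_neg_zmod (b : ZMod d) : Uv a (((-b).val : ℚ) / d) =
    starRingEnd ℂ (Uv a ((b.val : ℚ) / d)) := by
  have hd : (d : ℚ) ≠ 0 := by exact_mod_cast NeZero.ne d
  rw [← Uv_neg hN ha]
  by_cases hb : b = 0
  · rw [hb]
    simp
  · rw [ZMod.neg_val, if_neg hb, Nat.cast_sub (ZMod.val_lt b).le, sub_div, div_self hd,
      ← Uv_per (-(((b.val : ℕ) : ℚ) / d))]
    congr 1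
    ring

lemma Sm_conj : Sm (Uv a) d χ = χ (-1) * ∑ b : ZMod d, χ b * starRingEnd ℂ (Uv a ((b.val : ℚ) / d)) := by
  unfold Sm
  rw [← Equiv.sum_comp (Equiv.neg (ZMod d)) (fun b => χ b * Uv a ((b.val : ℚ) / d)), mul_sum]
  refine sum_congr rfl fun b _ => ?_
  rw [Equiv.neg_apply, Uv_neg_zmod hN ha, ← mul_assoc, ← map_mul, neg_one_mul]

lemma Sm_even (hχ : χ.Even) : Sm (Rv a) d χ = Sm (Uv a) d χ ∧ Sm (Iv a) d χ = 0 := by
  have h1 := Sm_conj hN ha χ
  rw [hχ, one_mul, Sm_split', Sm_split] at h1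
  have h2 : Complex.I * Sm (Iv a) d χ = 0 := by linear_combination h1 / 2
  have h3 := (mul_eq_zero.1 h2).resolve_left Complex.I_ne_zero
  refine ⟨?_, h3⟩
  rw [Sm_split, h3, mul_zero, add_zero]

lemma Sm_odd (hχ : χ.Odd) : Sm (Rv a) d χ = 0 ∧ ‖Sm (Iv a) d χ‖ = ‖Sm (Uv a) d χ‖ := by
  have h1 := Sm_conj hN ha χ
  rw [hχ, Sm_split', Sm_split] at h1
  have h2 : Sm (Rv a) d χ = 0 := by linear_combination h1 / 2
  refine ⟨h2, ?_⟩
  rw [Sm_split, h2, zero_add, norm_mul, Complex.norm_I, one_mul]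

end parity

section lval

variable (hN : 1 ≤ N) (ha : IsSemistable N a) {d : ℕ} [NeZero d] {χ : DirichletCharacter ℂ d}

include hN ha in
/-- The twisted central value exists for each conductor, and its product with the Gauss sum is the sum
of the boundary values. -/
lemma lval (hχ : χ.IsPrimitive) {L : ℂ} : HasLVal a χ L ↔
    gaussSum χ⁻¹ (ZMod.stdAddChar : AddChar (ZMod d) ℂ) * L = Sm (Uv a) d χ⁻¹ := by
  have hg : gaussSum χ⁻¹ (ZMod.stdAddChar : AddChar (ZMod d) ℂ) ≠ 0 := gauss_ne (prim_inv hχ)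
  have h1 : Tendsto (fun y : ℝ => ∑ b : ZMod d, χ⁻¹ b *
      Fser a (((((b.val : ℕ) : ℚ) / d : ℚ) : ℂ) + (y : ℂ) * Complex.I)) (𝓝[>] 0)
      (𝓝 (Sm (Uv a) d χ⁻¹)) := by
    unfold Sm
    refine tendsto_finsetSum _ (fun b _ => ?_)
    exact Tendsto.const_mul _ (hasVal hN ha _)
  have h2 : Tendsto (fun y : ℝ => ∑' k : ℕ, χ (k : ZMod d) * ((a k : ℂ) / (k : ℂ)) *
      (Real.exp (-(2 * Real.pi * k * y)) : ℂ)) (𝓝[>] 0)
      (𝓝 ((gaussSum χ⁻¹ (ZMod.stdAddChar : AddChar (ZMod d) ℂ))⁻¹ * Sm (Uv a) d χ⁻¹)) := by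
    refine (h1.const_mul _).congr' ?_
    filter_upwards [self_mem_nhdsWithin] with y hy
    rw [twisted_series ha.toIsForm hχ hy, ← mul_assoc, inv_mul_cancel₀ hg, one_mul]
  constructor
  · intro h
    rw [tendsto_nhds_unique h h2, ← mul_assoc, mul_inv_cancel₀ hg, one_mul]
  · intro h
    have : L = (gaussSum χ⁻¹ (ZMod.stdAddChar : AddChar (ZMod d) ℂ))⁻¹ * Sm (Uv a) d χ⁻¹ := by
      rw [← h, ← mul_assoc, inv_mul_cancel₀ hg, one_mul]
    rw [this]
    exact h2

end lval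

theorem exists_lval (hN : 1 ≤ N) (ha : IsSemistable N a) {d : ℕ} (hd : 1 ≤ d)
    {χ : DirichletCharacter ℂ d} (hχ : χ.IsPrimitive) : ∃ L : ℂ, HasLVal a χ L := by
  have : NeZero d := ⟨by omega⟩
  refine ⟨(gaussSum χ⁻¹ (ZMod.stdAddChar : AddChar (ZMod d) ℂ))⁻¹ * Sm (Uv a) d χ⁻¹,
    (lval hN ha hχ).2 ?_⟩
  rw [← mul_assoc, mul_inv_cancel₀ (gauss_ne (prim_inv hχ)), one_mul]

/-- A rational number is, up to an integer, a quotient of natural numbers. -/
lemma exists_nat (r : ℚ) : ∃ (b : ℕ) (k : ℤ), b.Coprime r.den ∧ r = (b : ℚ) / r.den + k := by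
  have hd : (0 : ℤ) < r.den := by exact_mod_cast r.den_pos
  have hdq : (r.den : ℚ) ≠ 0 := by exact_mod_cast r.den_pos.ne'
  obtain ⟨b, hb⟩ := Int.eq_ofNat_of_zero_le (Int.emod_nonneg r.num hd.ne')
  refine ⟨b, r.num / r.den, ?_, ?_⟩
  · have h1 := r.reduced
    have h2 : IsCoprime r.num (r.den : ℤ) := by
      rw [Int.isCoprime_iff_gcd_eq_one]
      exact h1
    have h3 : IsCoprime (r.num % r.den) (r.den : ℤ) := by
      have e : r.num % r.den = r.num + r.den * (-(r.num / r.den)) := by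
        have := Int.emod_add_mul_ediv r.num r.den
        linear_combination this
      rw [e]
      exact h2.add_mul_left_left _
    rw [hb] at h3
    exact Nat.isCoprime_iff_coprime.1 h3
  · have h1 := Int.emod_add_mul_ediv r.num r.den
    rw [hb] at h1
    have h2 : ((b : ℤ) : ℚ) + (r.den : ℚ) * ((r.num / r.den : ℤ) : ℚ) = r.num := by
      exact_mod_cast congrArg (fun t : ℤ => (t : ℚ)) h1
    conv_lhs => rw [← Rat.num_div_den r]
    rw [← h2]
    push_cast
    field_simp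

lemma Uv_int (x : ℚ) (k : ℤ) : Uv a (x + k) = Uv a x := Pool.Agent.K4H67.TV.Uv_add_int x k

/-- The even central values control the real parts of the boundary values. -/
theorem re_bound (hN : 1 ≤ N) (ha : IsSemistable N a) {D : ℕ} {X : ℝ} (hX : 0 ≤ X)
    (h : ∀ d : ℕ, 1 ≤ d → d ≤ D → ∀ χ : DirichletCharacter ℂ d, χ.IsPrimitive → χ.Even →
      ∀ L : ℂ, HasLVal a χ L → ‖L‖ ≤ X) (r : ℚ) (hr : r.den ≤ D) :
    |(Uv a r).re| ≤ (D : ℝ) ^ 4 * X := by
  have h1 : (1 : ℝ) ≤ D := by exact_mod_cast r.den_pos.trans_le hr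
  have hsq : √(D : ℝ) ≤ D := by
    rw [Real.sqrt_le_left (by linarith)]
    nlinarith
  obtain ⟨b, k, hb, hrk⟩ := exists_nat r
  have h2 := value_bound (allR hN ha) (D := D) (X := √(D : ℝ) * X) (by positivity) (by
      intro e _ heD χ hχ
      rcases χ.even_or_odd with hc | hc
      · rw [(Sm_even hN ha χ hc).1]
        obtain ⟨L, hL⟩ := exists_lval hN ha (NeZero.pos e) (prim_inv hχ)
        have h1 := (lval hN ha (prim_inv hχ)).1 hL
        rw [inv_inv] at h1
        rw [← h1, norm_mul, norm_gauss hχ]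
        have h3 : √(e : ℝ) ≤ √(D : ℝ) := Real.sqrt_le_sqrt (by exact_mod_cast heD)
        exact mul_le_mul h3 (h e (NeZero.pos e) heD χ⁻¹ (prim_inv hχ) (even_inv hc) L hL)
          (norm_nonneg _) (Real.sqrt_nonneg _)
      · rw [(Sm_odd hN ha χ hc).1, norm_zero]
        positivity) r.den r.den_pos hr b hb
  unfold Rv at h2
  rw [Complex.norm_real, Real.norm_eq_abs, ← Uv_int _ k, ← hrk] at h2
  refine h2.trans ?_
  have h3 : (r.den : ℝ) ≤ D := by exact_mod_cast hr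
  calc (r.den : ℝ) ^ 3 * (√(D : ℝ) * X) ≤ (D : ℝ) ^ 3 * (D * X) := by gcongr
    _ = (D : ℝ) ^ 4 * X := by ring

/-- The odd central values control the imaginary parts of the boundary values. -/
theorem im_bound (hN : 1 ≤ N) (ha : IsSemistable N a) {D : ℕ} {X : ℝ} (hX : 0 ≤ X)
    (h : ∀ d : ℕ, 1 ≤ d → d ≤ D → ∀ χ : DirichletCharacter ℂ d, χ.IsPrimitive → χ.Odd →
      ∀ L : ℂ, HasLVal a χ L → ‖L‖ ≤ X) (r : ℚ) (hr : r.den ≤ D) :
    |(Uv a r).im| ≤ (D : ℝ) ^ 4 * X := by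
  have h1 : (1 : ℝ) ≤ D := by exact_mod_cast r.den_pos.trans_le hr
  have hsq : √(D : ℝ) ≤ D := by
    rw [Real.sqrt_le_left (by linarith)]
    nlinarith
  obtain ⟨b, k, hb, hrk⟩ := exists_nat r
  have h2 := value_bound (allI hN ha) (D := D) (X := √(D : ℝ) * X) (by positivity) (by
      intro e _ heD χ hχ
      rcases χ.even_or_odd with hc | hc
      · rw [(Sm_even hN ha χ hc).2, norm_zero]
        positivity
      · rw [(Sm_odd hN ha χ hc).2]
        obtain ⟨L, hL⟩ := exists_lval hN ha (NeZero.pos e) (prim_inv hχ)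
        have h1 := (lval hN ha (prim_inv hχ)).1 hL
        rw [inv_inv] at h1
        rw [← h1, norm_mul, norm_gauss hχ]
        have h3 : √(e : ℝ) ≤ √(D : ℝ) := Real.sqrt_le_sqrt (by exact_mod_cast heD)
        exact mul_le_mul h3 (h e (NeZero.pos e) heD χ⁻¹ (prim_inv hχ) (odd_inv hc) L hL)
          (norm_nonneg _) (Real.sqrt_nonneg _)) r.den r.den_pos hr b hb
  unfold Iv at h2
  rw [Complex.norm_real, Real.norm_eq_abs, ← Uv_int _ k, ← hrk] at h2
  refine h2.trans ?_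
  have h3 : (r.den : ℝ) ≤ D := by exact_mod_cast hr
  calc (r.den : ℝ) ^ 3 * (√(D : ℝ) * X) ≤ (D : ℝ) ^ 3 * (D * X) := by gcongr
    _ = (D : ℝ) ^ 4 * X := by ring

/-- The converse: a bound for the values at the fractions with denominator `d`. -/
theorem lval_le {d : ℕ} [NeZero d] (hN : 1 ≤ N) (ha : IsSemistable N a)
    {χ : DirichletCharacter ℂ d} (hχ : χ.IsPrimitive) {L : ℂ} (hL : HasLVal a χ L) {E : ℝ}
    (hE : 0 ≤ E)
    (hV : (χ.Even ∧ ∀ b : ℕ, b.Coprime d → |(Uv a ((b : ℚ) / d)).re| ≤ E) ∨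
      (χ.Odd ∧ ∀ b : ℕ, b.Coprime d → |(Uv a ((b : ℚ) / d)).im| ≤ E)) :
    ‖L‖ ≤ √(d : ℝ) * E := by
  have hd0 : (0 : ℝ) < d := by exact_mod_cast NeZero.pos d
  have hsq : 0 < √(d : ℝ) := Real.sqrt_pos.2 hd0
  have hsq2 : √(d : ℝ) * √(d : ℝ) = d := Real.mul_self_sqrt hd0.le
  have h1 := (lval hN ha hχ).1 hL
  have h2 : √(d : ℝ) * ‖L‖ = ‖Sm (Uv a) d χ⁻¹‖ := by
    rw [← h1, norm_mul, norm_gauss (prim_inv hχ)]
  have main : ∀ (V : ℚ → ℂ), (∀ b : ℕ, b.Coprime d → ‖V ((b : ℚ) / d)‖ ≤ E) →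
      ‖Sm V d χ⁻¹‖ ≤ d * E := by
    intro V hV
    unfold Sm
    refine (norm_sum_le _ _).trans ?_
    have h4 : ∀ b ∈ (univ : Finset (ZMod d)), ‖χ⁻¹ b * V ((b.val : ℚ) / d)‖ ≤ E := by
      intro b _
      by_cases hbu : IsUnit b
      · have h5 : b.val.Coprime d := by
          rw [← ZMod.isUnit_iff_coprime, ZMod.natCast_zmod_val]
          exact hbu
        rw [norm_mul]
        calc ‖χ⁻¹ b‖ * ‖V ((b.val : ℚ) / d)‖ ≤ 1 * E :=
              mul_le_mul (χ⁻¹.norm_le_one b) (hV _ h5) (norm_nonneg _) zero_le_one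
          _ = E := one_mul E
      · rw [MulChar.map_nonunit _ hbu, zero_mul, norm_zero]
        exact hE
    refine (sum_le_sum h4).trans ?_
    rw [sum_const, card_univ, ZMod.card, nsmul_eq_mul]
  apply le_of_mul_le_mul_left _ hsq
  rw [h2, ← mul_assoc, hsq2]
  rcases hV with ⟨hc, hV⟩ | ⟨hc, hV⟩
  · rw [← (Sm_even hN ha χ⁻¹ (even_inv hc)).1]
    refine main (Rv a) (fun b hbd => ?_)
    unfold Rv
    rw [Complex.norm_real, Real.norm_eq_abs]
    exact hV b hbd
  · rw [← (Sm_odd hN ha χ⁻¹ (odd_inv hc)).2]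
    refine main (Iv a) (fun b hbd => ?_)
    unfold Iv
    rw [Complex.norm_real, Real.norm_eq_abs]
    exact hV b hbd

end Pool.Agent.H50.SV
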